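import Pool.Agent.Helper92.CP.OA3
import Pool.Agent.Helper26.CP.OA4a

set_option autoImplicit false

namespace Pool.Agent.CP

open Stage

variable {G V : Type*} [Group G] [AddCommGroup V] [Module ℚ V]

instance OA4b.trivSub_normal (S : Stage G V) : S.trivSub.Normal := ⟨fun n hn g => by
  have h1 := S.N_le_trivSub (S.comm g n)
  have := S.trivSub.mul_mem h1 hn
  simpa [mul_assoc] using this⟩

/-- a subgroup all whose elements have a power acting trivially on `U/U'` is a finite union of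
cosets of `trivSub` -/
theorem OA4b.finite_cosets [Group.FG G] (S : Stage G V) (A : Subgroup G)
    (hA : ∀ g ∈ A, ∃ m : ℕ, 0 < m ∧ S.Triv (g ^ m)) :
    ∃ r : List G, (∀ g ∈ r, g ∈ A) ∧ ∀ g ∈ A, ∃ g' ∈ r, S.Triv (g'⁻¹ * g) := by
  classical
  obtain ⟨Λ, hΛA, hΛ⟩ := exists_list_cl S A
  let π : G →* G ⧸ S.trivSub := QuotientGroup.mk' S.trivSub
  let H : Subgroup (G ⧸ S.trivSub) := A.map π
  have hcomm : ∀ a b : G ⧸ S.trivSub, a * b = b * a := by
    intro a b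
    obtain ⟨a, rfl⟩ := QuotientGroup.mk'_surjective S.trivSub a
    obtain ⟨b, rfl⟩ := QuotientGroup.mk'_surjective S.trivSub b
    rw [← map_mul, ← map_mul]
    apply Eq.symm
    rw [QuotientGroup.mk'_eq_mk']
    refine ⟨(b * a)⁻¹ * (a * b), ?_, by group⟩
    have := S.N_le_trivSub (S.comm a⁻¹ b⁻¹)
    simpa [mul_assoc] using this
  have hfg : Group.FG H := by
    rw [Group.fg_iff_subgroup_fg, Subgroup.fg_iff]
    refine ⟨(Λ.toFinset.image π : Finset _), ?_, Finset.finite_toSet _⟩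
    apply le_antisymm
    · rw [Subgroup.closure_le]
      intro y hy
      simp only [Finset.coe_image, List.coe_toFinset, Set.mem_image] at hy
      obtain ⟨g, hg, rfl⟩ := hy
      exact ⟨g, hΛA g hg, rfl⟩
    · rintro y ⟨g, hg, rfl⟩
      have h1 := hΛ hg
      have h2 : S.cl Λ ≤ (Subgroup.closure ((Λ.toFinset.image π : Finset _) :
          Set (G ⧸ S.trivSub))).comap π := by
        apply cl_le
        · intro g hg
          apply Subgroup.subset_closure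
          simp only [Finset.coe_image, List.coe_toFinset, Set.mem_image]
          exact ⟨g, hg, rfl⟩
        · intro ν hν
          have : π ν = 1 := by
            rw [QuotientGroup.mk'_apply, QuotientGroup.eq_one_iff]
            exact S.N_le_trivSub hν
          rw [Subgroup.mem_comap, this]
          exact Subgroup.one_mem _
      exact h2 h1
  let _ : CommGroup H := { (inferInstance : Group H) with
    mul_comm := fun a b => Subtype.ext (hcomm a.1 b.1) }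
  have _ : Group.FG H := hfg
  have htor : IsMulTorsion H := by
    rintro ⟨y, hy⟩
    obtain ⟨g, hg, rfl⟩ := hy
    obtain ⟨m, hm, h⟩ := hA g hg
    rw [isOfFinOrder_iff_pow_eq_one]
    refine ⟨m, hm, ?_⟩
    apply Subtype.ext
    change (π g) ^ m = 1
    rw [← map_pow, QuotientGroup.mk'_apply, QuotientGroup.eq_one_iff]
    exact h
  have hfin : Finite H := CommGroup.finite_of_fg_isMulTorsion H htor
  have _ := Fintype.ofFinite H
  have hch : ∀ y : H, ∃ g ∈ A, π g = y.1 := fun y => y.2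
  choose f hfA hf using hch
  refine ⟨(Finset.univ : Finset H).toList.map f, ?_, ?_⟩
  · intro g hg
    rw [List.mem_map] at hg
    obtain ⟨y, _, rfl⟩ := hg
    exact hfA y
  · intro g hg
    refine ⟨f ⟨π g, g, hg, rfl⟩, ?_, ?_⟩
    · rw [List.mem_map]
      exact ⟨_, by simp, rfl⟩
    · have h1 := hf ⟨π g, g, hg, rfl⟩
      simp only at h1
      have h2 : π ((f ⟨π g, g, hg, rfl⟩)⁻¹ * g) = 1 := by
        rw [map_mul, map_inv, h1, inv_mul_cancel]
      rw [QuotientGroup.mk'_apply, QuotientGroup.eq_one_iff] at h2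
      exact h2

/-- `{g ∈ C | NQ (d g)}` as a subgroup -/
def OA4b.CQ (S : Stage G V) (x : V) : Subgroup G where
  carrier := {g | g ∈ S.C x ∧ S.NQ x (S.d x g)}
  one_mem' := ⟨(S.C x).one_mem, by rw [d_one]; exact NQ.zero⟩
  mul_mem' := by
    rintro a b ⟨ha, ha'⟩ ⟨hb, hb'⟩
    refine ⟨(S.C x).mul_mem ha hb, ?_⟩
    rw [d_mul]
    exact (hb'.act ha).add ha'
  inv_mem' := by
    rintro a ⟨ha, ha'⟩
    refine ⟨(S.C x).inv_mem ha, ?_⟩
    rw [d_inv]
    exact (ha'.act ((S.C x).inv_mem ha)).neg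

/-- `{z | NQ z}` as an additive subgroup -/
def OA4b.PQ (S : Stage G V) (x : V) : AddSubgroup V where
  carrier := {z | S.NQ x z}
  zero_mem' := NQ.zero
  add_mem' := fun ha hb => NQ.add ha hb
  neg_mem' := fun ha => NQ.neg ha

theorem OA4b.conf_exists_T [Group.FG G] [FiniteDimensional ℚ V] (S : Stage G V) (x : V)
    (htriv : ∀ g ∈ S.C x, S.Triv g) : ∃ b h c : List G, S.Conf x b h c := by
  obtain ⟨b, h, hb, hh, hgen, hhP, hind, hcl⟩ := exists_split S (S.C x) (OA4b.PQ S x)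
    (fun m w hm hw => by
      have h1 : S.NQ x (m • w) := hw
      have := h1.smul ((m : ℚ)⁻¹)
      rwa [← Nat.cast_smul_eq_nsmul ℚ m w, smul_smul, inv_mul_cancel₀ (by positivity),
        one_smul] at this)
    (S.d x) (fun a ha b hb => NQ.of_mem (triv_d (htriv a ha) hb))
    (fun ν hν hνC => (NB_of_mem_N hν hνC).NQ)
  obtain ⟨c, hc, h1c, hval⟩ := finite_values S x (OA4b.CQ S x) (fun g hg => hg.1) (fun g hg => hg.2)
  have hhQ : ∀ a ∈ h, a ∈ OA4b.CQ S x := fun a ha => ⟨hh a ha, hhP a ha⟩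
  refine ⟨b, h, c, ⟨hb, hh, fun g hg => (hc g hg).1, fun g hg => hcl g (hc g hg).1 (hc g hg).2,
    h1c, hgen, ?_, ?_, Kind.T htriv hhP hind⟩⟩
  · intro g hg a ha
    exact hval _ ((OA4b.CQ S x).mul_mem (hhQ a ha) (hc g hg))
  · intro g hg a ha
    exact hval _ ((OA4b.CQ S x).mul_mem ((OA4b.CQ S x).inv_mem (hhQ a ha)) (hc g hg))

theorem OA4b.conf_exists_Z [Group.FG G] [FiniteDimensional ℚ V] (S : Stage G V) (x : V)
    (hall : ∀ g ∈ S.C x, S.NQ x (S.d x g)) : ∃ b h c : List G, S.Conf x b h c := by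
  obtain ⟨h, hh, hcl⟩ := exists_list_cl S (S.C x)
  obtain ⟨c, hc, h1c, hval⟩ := finite_values S x (S.C x) le_rfl hall
  refine ⟨[], h, c, ⟨by simp, hh, hc, fun g hg => hcl (hc g hg), h1c, by simpa using hcl, ?_, ?_,
    Kind.Z rfl⟩⟩
  · intro g hg a ha
    exact hval _ ((S.C x).mul_mem (hh a ha) (hc g hg))
  · intro g hg a ha
    exact hval _ ((S.C x).mul_mem ((S.C x).inv_mem (hh a ha)) (hc g hg))

/-- `{g ∈ C | κ g = 0}` as a subgroup -/
def OA4b.A1 (S : Stage G V) (x : V) : Subgroup G where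
  carrier := {g | g ∈ S.C x ∧ S.κ g = 0}
  one_mem' := ⟨(S.C x).one_mem, κ_one⟩
  mul_mem' := by
    rintro a b ⟨ha, ha'⟩ ⟨hb, hb'⟩
    exact ⟨(S.C x).mul_mem ha hb, by rw [S.κ_mul, ha', hb', add_zero]⟩
  inv_mem' := by
    rintro a ⟨ha, ha'⟩
    exact ⟨(S.C x).inv_mem ha, by rw [κ_inv, ha', neg_zero]⟩

theorem OA4b.conf_exists_K [Group.FG G] [FiniteDimensional ℚ V] (S : Stage G V) (x : V) {g₀ : G}
    (hg₀ : g₀ ∈ S.C x) (hn : ¬ S.Triv g₀) (hd : ¬ S.NQ x (S.d x g₀)) :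
    ∃ b h c : List G, S.Conf x b h c := by
  obtain ⟨b, h, hb, hh, hgen, hhP, hind, hcl⟩ := exists_split S (S.C x)
    (⊥ : AddSubgroup (Fin S.q → ℚ))
    (fun m w hm hw => by
      rw [AddSubgroup.mem_bot] at hw ⊢
      rcases smul_eq_zero.mp hw with h | h
      · omega
      · exact h)
    S.κ (fun a _ b _ => by rw [S.κ_mul, sub_self]; exact AddSubgroup.zero_mem _)
    (fun ν hν _ => by
      rw [AddSubgroup.mem_bot]
      exact κ_of_triv (S.triv_of_mem_N hν))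
  simp only [AddSubgroup.mem_bot] at hhP hind hcl
  -- elements acting trivially
  have hA2Q : ∀ g ∈ S.C x ⊓ S.trivSub, S.NQ x (S.d x g) := by
    rintro a ⟨ha, hta⟩
    have h1 := (NB_cocycle_comm hg₀ ha).NQ
    have h2 : S.NQ x (S.ρ a (S.d x g₀) - S.d x g₀) := NQ.of_mem (hta _ hg₀)
    have h3 : S.NQ x (S.ρ g₀ (S.d x a) - S.d x a) := by
      have := h1.add h2
      simpa using this
    exact NQ_of_sub_one hg₀ hn ha h3
  obtain ⟨c₂, hc₂, h1c₂, hval₂⟩ := finite_values S x (S.C x ⊓ S.trivSub) inf_le_left hA2Q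
  obtain ⟨r, hr, hrcov⟩ := OA4b.finite_cosets S (OA4b.A1 S x) (fun g hg => (S.κ_zero g).1 hg.2)
  have hc₂A : ∀ g ∈ c₂, g ∈ OA4b.A1 S x := fun g hg => ⟨(hc₂ g hg).1, κ_of_triv (hc₂ g hg).2⟩
  let c : List G := 1 :: (r.flatMap fun g => c₂.map fun g' => g * g')
  have hc : ∀ g ∈ c, g ∈ OA4b.A1 S x := by
    intro g hg
    rcases List.mem_cons.mp hg with h | h
    · rw [h]; exact (OA4b.A1 S x).one_mem
    · rw [List.mem_flatMap] at h
      obtain ⟨g₁, hg₁, h⟩ := h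
      rw [List.mem_map] at h
      obtain ⟨g₂, hg₂, rfl⟩ := h
      exact (OA4b.A1 S x).mul_mem (hr g₁ hg₁) (hc₂A g₂ hg₂)
  have hval : ∀ g ∈ OA4b.A1 S x, ∃ g' ∈ c, S.NB x (S.d x g - S.d x g') := by
    intro g hg
    obtain ⟨g₁, hg₁, ht⟩ := hrcov g hg
    have hg₁C := (hr g₁ hg₁).1
    have hmem : g₁⁻¹ * g ∈ S.C x ⊓ S.trivSub :=
      ⟨(S.C x).mul_mem ((S.C x).inv_mem hg₁C) hg.1, ht⟩
    obtain ⟨g₂, hg₂, hnb⟩ := hval₂ _ hmem
    refine ⟨g₁ * g₂, ?_, ?_⟩
    · apply List.mem_cons_of_mem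
      rw [List.mem_flatMap]
      exact ⟨g₁, hg₁, List.mem_map.mpr ⟨g₂, hg₂, rfl⟩⟩
    · have h1 := hnb.act hg₁C
      have h2 : S.d x g = S.ρ g₁ (S.d x (g₁⁻¹ * g)) + S.d x g₁ := by
        rw [← d_mul]; simp
      have h3 : S.d x (g₁ * g₂) = S.ρ g₁ (S.d x g₂) + S.d x g₁ := d_mul S x g₁ g₂
      have e : S.d x g - S.d x (g₁ * g₂) = S.ρ g₁ (S.d x (g₁⁻¹ * g) - S.d x g₂) := by
        rw [h2, h3, map_sub]; abel
      rwa [e]
  have hhA : ∀ a ∈ h, a ∈ OA4b.A1 S x := fun a ha => ⟨hh a ha, hhP a ha⟩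
  refine ⟨b, h, c, ⟨hb, hh, fun g hg => (hc g hg).1, fun g hg => hcl g (hc g hg).1 (hc g hg).2,
    by simp [c], hgen, ?_, ?_, Kind.K g₀ hg₀ hn hd hhP hind⟩⟩
  · intro g hg a ha
    exact hval _ ((OA4b.A1 S x).mul_mem (hhA a ha) (hc g hg))
  · intro g hg a ha
    exact hval _ ((OA4b.A1 S x).mul_mem ((OA4b.A1 S x).inv_mem (hhA a ha)) (hc g hg))

theorem conf_exists [Group.FG G] [FiniteDimensional ℚ V] (S : Stage G V) (x : V) :
    ∃ b h c : List G, S.Conf x b h c := by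
  by_cases htriv : ∀ g ∈ S.C x, S.Triv g
  · exact OA4b.conf_exists_T S x htriv
  · push Not at htriv
    obtain ⟨g₀, hg₀, hn⟩ := htriv
    by_cases hd : S.NQ x (S.d x g₀)
    · apply OA4b.conf_exists_Z S x
      intro a ha
      have h1 := (NB_cocycle_comm hg₀ ha).NQ
      have h2 : S.NQ x (S.ρ a (S.d x g₀) - S.d x g₀) := (hd.act ha).sub hd
      have h3 : S.NQ x (S.ρ g₀ (S.d x a) - S.d x a) := by
        have := h1.add h2
        simpa using this
      exact NQ_of_sub_one hg₀ hn ha h3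
    · exact OA4b.conf_exists_K S x hg₀ hn hd

end Pool.Agent.CP
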