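import Pool.Agent.Helper98.CP.BDefs

set_option autoImplicit false

namespace Pool.Agent.CP

open Stage

variable {G V : Type*} [Group G] [AddCommGroup V] [Module ℚ V]

theorem OA7.refine_between [FiniteDimensional ℚ V] (B : Base G V) (i : ℕ) (T : Submodule ℚ V)
    (hT : T ≤ B.W i) (hTinv : ∀ g : G, ∀ v ∈ T, B.ρ g v ∈ T) (A : Submodule ℚ V) :
    A ≤ T → B.W (i + 1) ≤ A → (∀ g : G, ∀ v ∈ A, B.ρ g v ∈ A) →
      Relation.ReflTransGen B.IsStep T A := by
  induction A using WellFoundedGT.induction with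
  | ind A ih =>
    intro hAT hWA hAinv
    by_cases hAT' : A = T
    · rw [hAT']
    · have hlt : A < T := lt_of_le_of_ne hAT hAT'
      obtain ⟨X, ⟨hXinv, hAX, hXT⟩, hmin⟩ := (wellFounded_lt (α := Submodule ℚ V)).has_min
        {X : Submodule ℚ V | (∀ g : G, ∀ v ∈ X, B.ρ g v ∈ X) ∧ A < X ∧ X ≤ T}
        ⟨T, hTinv, hlt, le_rfl⟩
      refine Relation.ReflTransGen.tail (ih X hAX hXT (hWA.trans hAX.le) hXinv) ?_
      refine ⟨hAX.le, hXinv, hAinv, ⟨i, hXT.trans hT, hWA⟩, ?_⟩
      intro Y hYinv hAY hYX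
      by_cases hY : Y = A
      · exact Or.inl hY
      · right
        by_contra hYX'
        exact hmin Y ⟨hYinv, lt_of_le_of_ne hAY (Ne.symm hY), hYX.trans hXT⟩
          (lt_of_le_of_ne hYX hYX')

theorem refine_flag [FiniteDimensional ℚ V] (B : Base G V) :
    Relation.ReflTransGen B.IsStep ⊤ ⊥ := by
  have h : ∀ i, Relation.ReflTransGen B.IsStep ⊤ (B.W i) := by
    intro i
    induction i with
    | zero => rw [B.W0]
    | succ i ih =>
      exact ih.trans (OA7.refine_between B i (B.W i) le_rfl (fun g v hv => B.inv g i v hv)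
        (B.W (i + 1)) (B.anti i) le_rfl (fun g v hv => B.inv g (i + 1) v hv))
  have := h B.c
  rwa [B.Wc] at this

end Pool.Agent.CP
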