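import Pool.Agent.Helper98.CP.BDefs

set_option autoImplicit false

namespace Pool.Agent.CP

open Stage DirectSum

/-- a f.g. additive commutative group modulo torsion embeds in `ℚ^q` -/
theorem OA8.add_version (A : Type*) [AddCommGroup A] [AddGroup.FG A] :
    ∃ (q : ℕ) (κ : A →+ (Fin q → ℚ)), ∀ a, κ a = 0 ↔ ∃ m : ℕ, 0 < m ∧ m • a = 0 := by
  obtain ⟨n, ι, _, p, hp, e, ⟨f⟩⟩ := AddCommGroup.equiv_free_prod_directSum_zmod A
  classical
  let κ : A →+ (Fin n → ℚ) :=
    { toFun := fun a i => (((f a).1 i : ℤ) : ℚ)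
      map_zero' := by ext i; simp
      map_add' := fun a b => by ext i; simp }
  refine ⟨n, κ, fun a => ?_⟩
  have hκ : κ a = 0 ↔ (f a).1 = 0 := by
    constructor
    · intro h
      ext i
      have := congrFun h i
      simp only [κ, AddMonoidHom.coe_mk, ZeroHom.coe_mk, Pi.zero_apply, Int.cast_eq_zero] at this
      simpa using this
    · intro h
      ext i
      simp [κ, h]
  rw [hκ]
  constructor
  · intro h
    refine ⟨∏ i, p i ^ e i, Finset.prod_pos fun i _ => pow_pos (hp i).pos _, ?_⟩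
    apply f.injective
    rw [map_nsmul, map_zero]
    apply Prod.ext
    · rw [Prod.smul_fst, h, smul_zero, Prod.fst_zero]
    · rw [Prod.smul_snd, Prod.snd_zero]
      ext i
      rw [DirectSum.smul_apply, DirectSum.zero_apply]
      obtain ⟨k, hk⟩ : p i ^ e i ∣ ∏ i, p i ^ e i := Finset.dvd_prod_of_mem _ (Finset.mem_univ i)
      rw [hk, mul_comm, mul_smul]
      have : (p i ^ e i) • ((f a).2 i) = 0 := by
        rw [nsmul_eq_mul, ZMod.natCast_self, zero_mul]
      rw [this, smul_zero]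
  · rintro ⟨m, hm, h⟩
    have h1 : m • (f a).1 = 0 := by
      rw [← Prod.smul_fst, ← map_nsmul, h, map_zero, Prod.fst_zero]
    rcases smul_eq_zero.mp h1 with h2 | h2
    · omega
    · exact h2

theorem kappa_exists {G : Type*} [Group G] [Group.FG G] (H : Subgroup G)
    (hH : ∀ a b : G, a * b * a⁻¹ * b⁻¹ ∈ H) :
    ∃ (q : ℕ) (κ : G → (Fin q → ℚ)), (∀ a b, κ (a * b) = κ a + κ b) ∧
      ∀ a, κ a = 0 ↔ ∃ m : ℕ, 0 < m ∧ a ^ m ∈ H := by
  have hnorm : H.Normal := ⟨fun n hn g => by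
    have := H.mul_mem (hH g n) hn
    simpa [mul_assoc] using this⟩
  have hcomm : ∀ a b : G ⧸ H, a * b = b * a := by
    intro a b
    obtain ⟨a, rfl⟩ := QuotientGroup.mk'_surjective H a
    obtain ⟨b, rfl⟩ := QuotientGroup.mk'_surjective H b
    rw [← map_mul, ← map_mul]
    apply Eq.symm
    rw [QuotientGroup.mk'_eq_mk']
    refine ⟨(b * a)⁻¹ * (a * b), ?_, by group⟩
    have := hH a⁻¹ b⁻¹
    simpa [mul_assoc] using this
  let _ : CommGroup (G ⧸ H) := { (inferInstance : Group (G ⧸ H)) with mul_comm := hcomm }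
  have hfg : Group.FG (G ⧸ H) := QuotientGroup.fg H
  have hfg' : AddGroup.FG (Additive (G ⧸ H)) := AddGroup.fg_iff_mul_fg.2 hfg
  obtain ⟨q, κ, hκ⟩ := OA8.add_version (Additive (G ⧸ H))
  refine ⟨q, fun g => κ (Additive.ofMul (QuotientGroup.mk' H g)), ?_, ?_⟩
  · intro a b
    simp only [map_mul, ofMul_mul, map_add]
  · intro a
    rw [hκ]
    have : ∀ m : ℕ, m • Additive.ofMul (QuotientGroup.mk' H a) = 0 ↔ a ^ m ∈ H := by
      intro m
      rw [← ofMul_pow, ← map_pow, ofMul_eq_zero, QuotientGroup.mk'_apply,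
        QuotientGroup.eq_one_iff]
    simp only [this]

end Pool.Agent.CP
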