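import Pool.Agent.Helper54.CP.OR2

set_option autoImplicit false

namespace Pool.Agent.CP

open Stage Pool.Agent.CQ

namespace OR6

variable {α β : Type*} [Primcodable α] [Primcodable β]

theorem cp_comp {p : β → Prop} (hp : ComputablePred p) {f : α → β} (hf : Computable f) :
    ComputablePred (fun a => p (f a)) :=
  computable_of_re (re_comp hp.to_re hf) (re_comp hp.not.to_re hf)

theorem cp_forall_fintype {ι : Type*} [Fintype ι] {p : ι → α → Prop}
    (hp : ∀ i, ComputablePred (p i)) : ComputablePred (fun a => ∀ i, p i a) := by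
  refine computable_of_re (re_forall_fintype fun i => (hp i).to_re) ?_
  refine (re_exists_fintype fun i => (hp i).not.to_re).of_eq fun a => ?_
  simp

/-- a linear map sends `U` into `U'` iff it sends a basis of `U` into `U'` -/
theorem forall_mem_iff {V : Type*} [AddCommGroup V] [Module ℚ V] [FiniteDimensional ℚ V]
    (U U' : Submodule ℚ V) (X : V →ₗ[ℚ] V) :
    (∀ v ∈ U, X v ∈ U') ↔ ∀ i, X (Module.finBasis ℚ U i : V) ∈ U' := by
  constructor
  · intro h i
    exact h _ (Module.finBasis ℚ U i).2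
  · intro h v hv
    have h1 : (⊤ : Submodule ℚ U) ≤ U'.comap (X ∘ₗ U.subtype) := by
      rw [← (Module.finBasis ℚ U).span_eq, Submodule.span_le]
      rintro _ ⟨i, rfl⟩
      exact h i
    exact h1 (x := ⟨v, hv⟩) trivial

theorem cp_sub {m : ℕ} (U : Submodule ℚ (Fin m → ℚ)) :
    ComputablePred (fun v : Fin m → ℚ => v ∈ U) := by
  obtain ⟨W, hW⟩ := U.exists_isCompl
  let f : (Fin m → ℚ) →ₗ[ℚ] (Fin m → ℚ) :=
    W.subtype ∘ₗ W.projectionOnto U hW.symm
  have hf : ∀ v, f v = 0 ↔ v ∈ U := by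
    intro v
    have h1 : f v = ((W.projectionOnto U hW.symm v : W) : Fin m → ℚ) := rfl
    rw [h1, Submodule.coe_eq_zero, Submodule.projectionOnto_apply_eq_zero_iff]
  have h1 : ComputablePred (fun v : Fin m → ℚ => (LinearMap.toMatrix' f).mulVec v = 0) :=
    cp_eq (c_mulVec (Computable.const _) Computable.id) (Computable.const _)
  refine h1.of_eq fun v => ?_
  rw [LinearMap.toMatrix'_mulVec]
  exact hf v

end OR6

open OR6

theorem cp_C {k n : ℕ} (S : Stage (FreeGroup (Fin k)) (Fin n → ℚ)) :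
    ComputablePred (fun p : (Fin n → ℚ) × Wd k => gw p.2 ∈ S.C p.1) :=
  cp_comp (p := fun v => v ∈ S.U) (cp_sub S.U) (c_d S Computable.snd Computable.fst)

theorem cp_C' {k n : ℕ} (S : Stage (FreeGroup (Fin k)) (Fin n → ℚ)) :
    ComputablePred (fun p : (Fin n → ℚ) × Wd k => gw p.2 ∈ S.C' p.1) :=
  cp_comp (p := fun v => v ∈ S.U') (cp_sub S.U') (c_d S Computable.snd Computable.fst)

theorem cp_Triv {k n : ℕ} (S : Stage (FreeGroup (Fin k)) (Fin n → ℚ)) :
    ComputablePred (fun w : Wd k => S.Triv (gw w)) := by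
  have h1 : ComputablePred (fun w : Wd k => ∀ i, S.ρ (gw w) (Module.finBasis ℚ S.U i : Fin n → ℚ) -
      (Module.finBasis ℚ S.U i : Fin n → ℚ) ∈ S.U') := by
    refine cp_forall_fintype fun i => ?_
    refine cp_comp (p := fun v => v ∈ S.U') (cp_sub S.U') ?_
    exact c_vsub (c_act S.ρ Computable.id (Computable.const _)) (Computable.const _)
  refine h1.of_eq fun w => ?_
  have := forall_mem_iff S.U S.U' (S.ρ (gw w) - LinearMap.id)
  simp only [LinearMap.sub_apply, LinearMap.id_apply] at this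
  exact this.symm

/-- equality of operators on `U/U'` is decidable -/
theorem cp_opEq {k n : ℕ} (S : Stage (FreeGroup (Fin k)) (Fin n → ℚ)) :
    ComputablePred (fun p : List (ℚ × Wd k) × List (ℚ × Wd k) =>
      ∀ v ∈ S.U, S.op (lgw p.1) v - S.op (lgw p.2) v ∈ S.U') := by
  have hop : ∀ v : Fin n → ℚ, Computable (fun l : List (ℚ × Wd k) => S.op (lgw l) v) := by
    intro v
    refine (c_mulVec (c_op S) (Computable.const v)).of_eq fun l => ?_
    exact LinearMap.toMatrix'_mulVec _ _
  have h1 : ComputablePred (fun p : List (ℚ × Wd k) × List (ℚ × Wd k) =>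
      ∀ i, S.op (lgw p.1) (Module.finBasis ℚ S.U i : Fin n → ℚ) -
        S.op (lgw p.2) (Module.finBasis ℚ S.U i : Fin n → ℚ) ∈ S.U') := by
    refine cp_forall_fintype fun i => ?_
    refine cp_comp (p := fun v => v ∈ S.U') (cp_sub S.U') ?_
    exact c_vsub ((hop _).comp Computable.fst) ((hop _).comp Computable.snd)
  refine h1.of_eq fun p => ?_
  have := forall_mem_iff S.U S.U' (S.op (lgw p.1) - S.op (lgw p.2))
  simp only [LinearMap.sub_apply] at this
  exact this.symm

namespace OR6

variable {k : ℕ}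

/-- one factor of a product of elements of a list of words and their inverses -/
def fac (Λ : List (Wd k)) (q : ℕ × Bool) : Wd k :=
  bif q.2 then Λ.getD q.1 [] else winv (Λ.getD q.1 [])

/-- a product of elements of a list of words and their inverses -/
def pr (Λ : List (Wd k)) (u : List (ℕ × Bool)) : Wd k := (u.map (fac Λ)).flatten

theorem pr_append (Λ : List (Wd k)) (u v : List (ℕ × Bool)) :
    gw (pr Λ (u ++ v)) = gw (pr Λ u) * gw (pr Λ v) := by
  rw [← gw_append, pr, pr, pr, List.map_append, List.flatten_append]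

theorem pr_singleton (Λ : List (Wd k)) (q : ℕ × Bool) : gw (pr Λ [q]) = gw (fac Λ q) := by
  simp [pr]

theorem pr_cons (Λ : List (Wd k)) (q : ℕ × Bool) (u : List (ℕ × Bool)) :
    gw (pr Λ (q :: u)) = gw (fac Λ q) * gw (pr Λ u) := by
  rw [← gw_append, pr, pr, List.map_cons, List.flatten_cons]

theorem fac_not (Λ : List (Wd k)) (q : ℕ × Bool) :
    gw (fac Λ (q.1, !q.2)) = (gw (fac Λ q))⁻¹ := by
  rcases q with ⟨i, b⟩
  cases b <;> simp [fac, gw_winv]

theorem pr_inv (Λ : List (Wd k)) (u : List (ℕ × Bool)) : ∃ v, gw (pr Λ v) = (gw (pr Λ u))⁻¹ := by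
  induction u with
  | nil => exact ⟨[], by simp [pr, gw, ← FreeGroup.one_eq_mk]⟩
  | cons q u ih =>
    obtain ⟨v, hv⟩ := ih
    refine ⟨v ++ [(q.1, !q.2)], ?_⟩
    rw [pr_append, pr_singleton, fac_not, hv, pr_cons, mul_inv_rev]

theorem mem_closure_iff (Λ : List (Wd k)) (g : FreeGroup (Fin k)) :
    g ∈ Subgroup.closure {g | g ∈ Λ.map gw} ↔ ∃ u, gw (pr Λ u) = g := by
  constructor
  · intro hg
    induction hg using Subgroup.closure_induction with
    | mem x hx =>
      simp only [List.mem_map, Set.mem_ofPred_eq] at hx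
      obtain ⟨w, hw, rfl⟩ := hx
      obtain ⟨i, hi, h⟩ := List.getElem_of_mem hw
      refine ⟨[(i, true)], ?_⟩
      rw [pr_singleton]
      simp only [fac, cond_true]
      rw [List.getD_eq_getElem _ _ hi, h]
    | one => exact ⟨[], by simp [pr, gw, ← FreeGroup.one_eq_mk]⟩
    | mul x y _ _ hx hy =>
      obtain ⟨u, rfl⟩ := hx
      obtain ⟨v, rfl⟩ := hy
      exact ⟨u ++ v, pr_append Λ u v⟩
    | inv x _ hx =>
      obtain ⟨u, rfl⟩ := hx
      exact pr_inv Λ u
  · rintro ⟨u, rfl⟩
    induction u with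
    | nil =>
      have : gw (pr Λ []) = 1 := by simp [pr, gw, ← FreeGroup.one_eq_mk]
      rw [this]
      exact Subgroup.one_mem _
    | cons q u ih =>
      rw [pr_cons]
      refine Subgroup.mul_mem _ ?_ ih
      have h1 : gw (Λ.getD q.1 []) ∈ Subgroup.closure {g | g ∈ Λ.map gw} := by
        by_cases hi : q.1 < Λ.length
        · rw [List.getD_eq_getElem _ _ hi]
          apply Subgroup.subset_closure
          simp only [List.mem_map, Set.mem_ofPred_eq]
          exact ⟨_, List.getElem_mem hi, rfl⟩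
        · rw [List.getD_eq_default _ _ (by omega)]
          have : gw ([] : Wd k) = 1 := by simp [gw, ← FreeGroup.one_eq_mk]
          rw [this]
          exact Subgroup.one_mem _
      rcases q with ⟨i, b⟩
      cases b
      · simp only [fac, cond_false, gw_winv]
        exact Subgroup.inv_mem _ h1
      · simp only [fac, cond_true]
        exact h1

theorem mem_cl_iff {V : Type*} [AddCommGroup V] [Module ℚ V] (S : Stage (FreeGroup (Fin k)) V)
    (Λ : List (Wd k)) (w : Wd k) :
    gw w ∈ S.cl (Λ.map gw) ↔ ∃ u, gw (winv (pr Λ u) ++ w) ∈ S.N := by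
  rw [Stage.cl, ← SetLike.mem_coe, Subgroup.mul_normal, Set.mem_mul]
  constructor
  · rintro ⟨s, hs, ν, hν, h⟩
    obtain ⟨u, rfl⟩ := (mem_closure_iff Λ s).1 hs
    refine ⟨u, ?_⟩
    rw [gw_append, gw_winv, ← h, inv_mul_cancel_left]
    exact hν
  · rintro ⟨u, hu⟩
    refine ⟨gw (pr Λ u), (mem_closure_iff Λ _).2 ⟨u, rfl⟩, _, hu, ?_⟩
    rw [gw_append, gw_winv, mul_inv_cancel_left]

theorem pr_winv : Primrec (winv : Wd k → Wd k) := by
  have h : Primrec (fun w : Wd k => (w.map fun g => (g.1, !g.2)).reverse) :=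
    Primrec.list_reverse.comp (Primrec.list_map Primrec.id
      (Primrec.pair (Primrec.fst.comp Primrec.snd)
        (Primrec.not.comp (Primrec.snd.comp Primrec.snd))).to₂)
  exact h

theorem primrec_fac : Primrec₂ (fac : List (Wd k) → ℕ × Bool → Wd k) := by
  have h1 : Primrec (fun p : List (Wd k) × (ℕ × Bool) => p.1.getD p.2.1 []) :=
    (Primrec.list_getD ([] : Wd k)).comp Primrec.fst (Primrec.fst.comp Primrec.snd)
  exact Primrec.cond (Primrec.snd.comp Primrec.snd) h1 (pr_winv.comp h1)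

theorem primrec_pr : Primrec₂ (pr : List (Wd k) → List (ℕ × Bool) → Wd k) := by
  have h : Primrec (fun p : List (Wd k) × List (ℕ × Bool) => (p.2.map (fac p.1)).flatten) :=
    Primrec.list_flatten.comp (Primrec.list_map Primrec.snd
      (primrec_fac.comp (Primrec.fst.comp Primrec.fst) Primrec.snd).to₂)
  exact h

end OR6

theorem re_cl {k n : ℕ} (S : Stage (FreeGroup (Fin k)) (Fin n → ℚ))
    (hN : REPred (fun w : Wd k => gw w ∈ S.N)) :
    REPred (fun p : List (Wd k) × Wd k => gw p.2 ∈ S.cl (p.1.map gw)) := by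
  have h1 : REPred (fun p : List (Wd k) × Wd k =>
      ∃ u : List (ℕ × Bool), gw (winv (OR6.pr p.1 u) ++ p.2) ∈ S.N) := by
    refine re_exists ?_
    refine re_comp (p := fun w : Wd k => gw w ∈ S.N) hN ?_
    have h2 : Primrec (fun p : (List (Wd k) × Wd k) × List (ℕ × Bool) =>
        winv (OR6.pr p.1.1 p.2) ++ p.1.2) :=
      Primrec.list_append.comp
        (OR6.pr_winv.comp (OR6.primrec_pr.comp (Primrec.fst.comp Primrec.fst) Primrec.snd))
        (Primrec.snd.comp Primrec.fst)
    exact h2.to_comp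
  exact h1.of_eq fun p => (OR6.mem_cl_iff S p.1 p.2).symm

end Pool.Agent.CP
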